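import Pool.Agent.Lib.MP_2392aa_gt.S.Conv
import Pool.Agent.Lib.MP_2392aa_gt.S.CexM
import Pool.Agent.Lib.MP_2392aa_gt.S.InjO
import Pool.Agent.Lib.MP_2392aa_gt.S.Torus

/-!
Linearization of smooth actions of lattices of `SL_n(ℝ)` on `n`-manifolds near a periodic point:
answer to the second question.

For `n ≥ 3` and every lattice `Γ` which is not commensurable with a conjugate of `SL_n(ℤ)` a smooth
action of `Γ` on a smooth `n`-manifold is, near every periodic point at which the derivative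
representation is standard or dual, up to conjugation and signs, smoothly conjugate on an
invariant open set to the derivative action on the whole tangent space. For every group `Γ`
commensurable with a conjugate of `SL_n(ℤ)`, `n ≥ 2`, this fails: the linear action of `Γ` on a
suitable open subset of `ℝⁿ` is a counterexample; for subgroups of finite index of `SL_n(ℤ)` the
action on the torus is a compact counterexample.
-/

open scoped ContDiff Manifold Topology
open LatAns

namespace Pool.Agent.Results.MP_2392aa_gt.GlobalAnswer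

/-- `Γ` acts smoothly on `M` and fixes `p`, the derivative representation at `p` is the inclusion,
it is unbounded, and the action is not conjugate to it on an invariant open set containing `p` -/
def NotLinearAt (n : ℕ) (Γ : Subgroup (SLR n)) {M : Type} [TopologicalSpace M]
    [ChartedSpace (RR n) M] [MulAction Γ M] (p : M) : Prop :=
  SmoothAction n M Γ ∧ (∀ γ : Γ, γ • p = p) ∧
    (∀ (γ : Γ) (v : RR n), (derivAt n γ p v).ofLp = γ.1.1.mulVec v.ofLp) ∧
    (∀ C : ℝ, ∃ γ : Γ, C < ‖derivAt n γ p‖) ∧ ¬ GloballyLinearAt n Γ p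

theorem result.{v} :
    (∀ (n : ℕ), 3 ≤ n → ∀ Γ : Subgroup (SLR n), IsLatNotZ n Γ →
      ∀ (M : Type v) [TopologicalSpace M] [T2Space M] [ChartedSpace (RR n) M]
        [IsManifold 𝓘(ℝ, RR n) ∞ M] [MulAction Γ M], SmoothAction n M Γ →
        ∀ p : M, (MulAction.orbit Γ p).Finite → StandardOrDualAt Γ p →
          GloballyLinearAt n Γ p) ∧
    (∀ (n : ℕ), 2 ≤ n → ∀ Γ : Subgroup (SLR n),
      CommConj Γ (Matrix.SpecialLinearGroup.map (Int.castRingHom ℝ)).range →
      ∃ (M : Type) (_ : TopologicalSpace M) (_ : T2Space M) (_ : SecondCountableTopology M)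
        (_ : ChartedSpace (RR n) M) (_ : IsManifold 𝓘(ℝ, RR n) ∞ M) (_ : MulAction Γ M) (p : M),
        NotLinearAt n Γ p ∧ ∀ x : M, (∀ γ : Γ, γ • x = x) → x = p) ∧
    ∀ (n : ℕ), 2 ≤ n → ∀ Γ : Subgroup (SLR n),
      Γ ≤ (Matrix.SpecialLinearGroup.map (Int.castRingHom ℝ)).range →
      Γ.relIndex (Matrix.SpecialLinearGroup.map (Int.castRingHom ℝ)).range ≠ 0 →
      ∃ (M : Type) (_ : TopologicalSpace M) (_ : T2Space M) (_ : SecondCountableTopology M)
        (_ : CompactSpace M) (_ : ConnectedSpace M) (_ : ChartedSpace (RR n) M)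
        (_ : IsManifold 𝓘(ℝ, RR n) ∞ M) (_ : MulAction Γ M) (p : M),
        NotLinearAt n Γ p ∧ {x : M | ∀ γ : Γ, γ • x = x}.Finite := by
  refine ⟨?_, ?_, fun n hn Γ h1 h2 => ?_⟩
  · intro n hn Γ hΓ M _ _ _ _ _ hs p hper hder
    rcases hΓ with ⟨hd, hc⟩ | ⟨Λ, hΛ, hc⟩
    · have := hd
      have := hc
      exact LatLin.globAt_cocompact hn Γ hs p hper hder
    · obtain ⟨g, h1, h2⟩ := hc.out
      have hA : LatLin.AllG.{v} Λ := by
        rcases hΛ with ⟨d, hd, m, e, D, hm, hD, hx, hΛ⟩ | h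
        · refine LatLin.AllG.reindex e.symm Λ ?_
          rw [inner_model e D hΛ]
          have hd' : 2 ≤ Fintype.card (Fin d) := by rwa [Fintype.card_fin]
          have hm' : 2 ≤ Fintype.card (Fin m) := by rwa [Fintype.card_fin]
          exact LatLin.allG_inner (fun D1 hD1 G1 h1 h2 => LatLin.injRel_I hD1 hd' hm' G1 h1 h2)
            (inner_divO hD hx) hd' hm'
        · obtain ⟨O, hO, rfl, hg⟩ := outer_model h
          have hn' : 3 ≤ Fintype.card (Fin n) := by rwa [Fintype.card_fin]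
          refine LatLin.allG_outer hn' (fun O' hO' hg' G1 h1 h2 => ?_) hO hg
          obtain ⟨u, hu, hu1, hun⟩ := hg'
          obtain ⟨k1, k2⟩ := LatLin.fl_unitO hn' hO' hu hu1 hun G1 h1 h2
          exact ⟨k2, k1, LatLin.injRel_unitO hn' hO' hu hu1 hun G1 h1 h2⟩
      exact LatLin.globAt_lat hA g h1 h2 hs p hper hder
  · intro n hn Γ hΓ
    obtain ⟨g, h1, h2⟩ := hΓ.out
    obtain ⟨M, i5, p, hM, hp0, hact, hsm, hfix, hiso, hder⟩ := LatLin.cexC_exists hn Γ g h1 h2
    refine ⟨M, inferInstance, inferInstance, inferInstance, inferInstance, inferInstance, i5, p,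
      ⟨hsm, hfix, ?_, ?_, ?_⟩, hiso⟩
    · intro γ v
      exact congrArg WithLp.ofLp (hder γ v)
    · intro C
      obtain ⟨γ, hγ, hC⟩ := LatLin.unbounded_of_comm hn h2 C
      refine ⟨⟨γ, hγ⟩, ?_⟩
      have h8 : derivAt n (⟨γ, hγ⟩ : Γ) p =
          (LatLin.slG (Fin n) γ : RR n →L[ℝ] RR n) := by
        ext1 v
        exact hder ⟨γ, hγ⟩ v
      rw [h8]
      exact hC
    · exact LatLin.cexC_not hn Γ g h2 M p hM hact hfix hder
  · obtain ⟨M, i1, i2, i3, i4, i5, i6, i7, i8, p, h3, h4, h5, h6, h7, h8⟩ :=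
      LatLin.Torus.torus_example hn Γ h1 h2
    exact ⟨M, i1, i2, i3, i4, i5, i6, i7, i8, p, ⟨h3, h4, h6, h7, h8⟩, h5⟩

end Pool.Agent.Results.MP_2392aa_gt.GlobalAnswer
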