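import Pool.Agent.Lib.MP_2392aa_gt.S.Conv
import Pool.Agent.Lib.MP_2392aa_gt.S.Unb
import Pool.Agent.Lib.MP_2392aa_gt.C.CexTwo
import Pool.Agent.Lib.MP_2392aa_gt.O.FinO

/-!
Linearization of smooth actions of lattices of `SL_n(ℝ)` on `n`-manifolds near a periodic point:
answer to the first question.

For `n ≥ 3` and every lattice `Γ` in the list `IsLat` (cocompact, or commensurable with a conjugate
of an arithmetic group of inner or outer type) a smooth action of `Γ` on a smooth `n`-manifold is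
smoothly linearizable near every periodic point at which the derivative representation is standard
or dual, up to conjugation and signs; one chart serves all elements of the stabilizer.
For `n = 2` there is a smooth action of a subgroup of finite index of `SL_2(ℤ)` on a surface with an
isolated fixed point with unbounded (standard) derivative at which the action is not linearizable.
-/

open scoped ContDiff Manifold Topology
open LatAns

namespace Pool.Agent.Results.MP_2392aa_gt.LocalAnswer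

theorem result.{v} :
    (∀ (n : ℕ), 3 ≤ n → ∀ Γ : Subgroup (SLR n), IsLat n Γ →
      ∀ (M : Type v) [TopologicalSpace M] [T2Space M] [ChartedSpace (RR n) M]
        [IsManifold 𝓘(ℝ, RR n) ∞ M] [MulAction Γ M], SmoothAction n M Γ →
        ∀ p : M, (MulAction.orbit Γ p).Finite → StandardOrDualAt Γ p →
          UniformlyLinearAt n Γ p) ∧
    ∃ (Γ : Subgroup (SLR 2)) (M : Type) (_ : TopologicalSpace M) (_ : T2Space M)
      (_ : SecondCountableTopology M) (_ : ChartedSpace (RR 2) M)
      (_ : IsManifold 𝓘(ℝ, RR 2) ∞ M) (_ : MulAction Γ M) (p : M),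
      Γ ≤ (Matrix.SpecialLinearGroup.map (Int.castRingHom ℝ)).range ∧
      Γ.relIndex (Matrix.SpecialLinearGroup.map (Int.castRingHom ℝ)).range ≠ 0 ∧
      SmoothAction 2 M Γ ∧ (∀ γ : Γ, γ • p = p) ∧ (∀ x : M, (∀ γ : Γ, γ • x = x) → x = p) ∧
      (∀ (γ : Γ) (v : RR 2), (derivAt 2 γ p v).ofLp = γ.1.1.mulVec v.ofLp) ∧
      (∀ C : ℝ, ∃ γ : Γ, C < ‖derivAt 2 γ p‖) ∧ ¬ GermLinearAt 2 Γ p := by
  constructor
  · intro n hn Γ hΓ M _ _ _ _ _ hs p hper hder
    rcases hΓ with ⟨hd, hc⟩ | ⟨Λ, hΛ, hc⟩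
    · have := hd
      have := hc
      exact (LatLin.globAt_cocompact hn Γ hs p hper hder).unifAt
    · obtain ⟨g, h1, h2⟩ := hc.out
      have hA : LatLin.AllU.{v} Λ := by
        rcases hΛ with ⟨d, h⟩ | h
        · exact allU_isInner hn h
        · obtain ⟨O, hO, rfl, hg⟩ := outer_model h
          have hn' : 3 ≤ Fintype.card (Fin n) := by rwa [Fintype.card_fin]
          refine LatLin.allU_outer hn' (fun O' hO' hg' G1 h1 h2 => ?_) hO hg
          obtain ⟨u, hu, hu1, hun⟩ := hg'
          exact (LatLin.fl_unitO hn' hO' hu hu1 hun G1 h1 h2).symm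
      exact LatLin.unifAt_lat hA g h1 h2 hs p hper hder
  · obtain ⟨Γ, M, i1, i2, i6, i3, i4, i5, p, h1, h2, h3, h4, h5, h6, h7⟩ := LatLin.two_example
    refine ⟨Γ, M, i1, i2, i6, i3, i4, i5, p, h1, h2, h3, h4, h5, ?_, ?_, ?_⟩
    · intro γ v
      exact congrArg WithLp.ofLp (h6 γ v)
    · intro C
      obtain ⟨γ, hγ, hC⟩ := LatLin.unbounded_of_index le_rfl h2 C
      refine ⟨⟨γ, hγ⟩, ?_⟩
      have h8 : derivAt 2 (⟨γ, hγ⟩ : Γ) p =
          (LatLin.slG (Fin 2) γ : RR 2 →L[ℝ] RR 2) := by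
        ext1 v
        exact h6 ⟨γ, hγ⟩ v
      rw [h8]
      exact hC
    · rintro ⟨e, k1, k2, k3, k4, k5⟩
      refine h7 ⟨e, k1, k2, k3, k4, fun γ => ?_⟩
      filter_upwards [k5 γ (h4 γ)] with x hx
      rw [hx]
      exact h6 γ (e x)

end Pool.Agent.Results.MP_2392aa_gt.LocalAnswer
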